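import Pool.Agent.N728.QG.All2

set_option autoImplicit false

/-!
# Splittings `n = a + b` with `a b + 1`, or `a b - 1`, prime, for almost all `n`

For every `ε > 0` there is `κ > 0` such that for every `δ > 0` and all large `N` all but at most `ε N` of the `n ≤ N`
satisfy, for `c = 1` and for `c = -1`: the constant `K` of Hardy and Littlewood for the polynomial `x (n - x) + c` exists,
`K ≥ κ`, and the number of the pairs `a, b ≥ 1` with `a + b = n` and `a b + c` prime is `K n / log n` up to `δ n / log n`.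

Proof (`Agent/N728/QL`, `Agent/N728/QG`, `Agent/N728/QN`): bilinear sums over `u v + c` with an arbitrary bounded function
of `u + v` do not change if a divisor of `u v`, composed of primes of a suitable range, is moved from `u` to `v`; by the
multiplication table phenomenon of Erdős few multiplicative windows contain such a divisor, and the off-diagonal terms are
bounded by two applications of the Cauchy-Schwarz inequality and the fundamental lemma of the sieve (functions with mean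
zero on the cells (residue class and block)). For the functions constant on the cells the range is shifted, by moving
divisors again, to `u ≤ v / (log v)^C`, where the theorem of Bombieri and Vinogradov at the sharp level applies.
-/

namespace Pool.Agent.Results.MP_f8fff1_nt.AlmostAllIntegers

open Finset Filter Topology

/-- The products over the primes `p ≤ z` which define the constant `K(n)`: `1/2` if `n` is even, times the product of
`1 - (n² + 4 c | p) / (p - 1)` over the odd primes `p ≤ z` (`jacobiSym` is the Legendre symbol). -/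
noncomputable def partialK (c : ℤ) (n z : ℕ) : ℝ :=
  (if Even n then 1 / 2 else 1) *
    ∏ p ∈ (Icc 3 z).filter Nat.Prime, (1 - (jacobiSym ((n : ℤ) ^ 2 + 4 * c) p : ℝ) / (p - 1))

/-- The number of the pairs `a, b ≥ 1` with `a + b = n` and `a b + c` a (positive) prime. -/
def rep (c : ℤ) (n : ℕ) : ℕ :=
  ((Icc 1 n ×ˢ Icc 1 n).filter (fun q : ℕ × ℕ => q.1 + q.2 = n ∧ ((q.1 : ℤ) * q.2 + c).toNat.Prime)).card

/-- The conclusion for one `n`, for both signs: the products converge to `K ≥ κ`, and the number of representations is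
`K n / log n` up to `δ n / log n`. -/
def Good (κ δ : ℝ) (n : ℕ) : Prop :=
  ∀ c : ℤ, (c = 1 ∨ c = -1) → ∃ K : ℝ, Tendsto (partialK c n) atTop (𝓝 K) ∧ κ ≤ K ∧
    |(rep c n : ℝ) - K * (n / Real.log n)| ≤ δ * (n / Real.log n)

open Classical in
/-- The number of the `n ≤ N` for which the conclusion fails. -/
noncomputable def exceptions (κ δ : ℝ) (N : ℕ) : ℕ := ((Icc 1 N).filter (fun n : ℕ => ¬ Good κ δ n)).card

lemma rep_eq (c : ℤ) (n : ℕ) : rep c n = Pool.Agent.N728.QG.rxy c n := by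
  unfold rep Pool.Agent.N728.QG.rxy
  refine card_bij' (fun q _ => q.1) (fun x _ => (x, n - x)) ?_ ?_ ?_ ?_
  · rintro ⟨x, y⟩ h
    rw [mem_filter, mem_product, mem_Icc, mem_Icc] at h
    obtain ⟨⟨h1, h2⟩, h3, h4⟩ := h
    simp only at h1 h2 h3 h4
    rw [mem_filter, mem_Ico]
    refine ⟨⟨h1.1, by omega⟩, ?_⟩
    have h5 : (y : ℤ) = (n : ℤ) - x := by omega
    rw [← h5]
    exact h4
  · intro x h
    rw [mem_filter, mem_Ico] at h
    obtain ⟨⟨h1, h2⟩, h3⟩ := h
    rw [mem_filter, mem_product, mem_Icc, mem_Icc]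
    refine ⟨⟨⟨h1, by simp only; omega⟩, ⟨by simp only; omega, by simp only; omega⟩⟩, by simp only; omega, ?_⟩
    have h5 : ((n - x : ℕ) : ℤ) = (n : ℤ) - x := by omega
    simp only
    rw [h5]
    exact h3
  · rintro ⟨x, y⟩ h
    rw [mem_filter] at h
    have h1 := h.2.1
    simp only at h1
    simp only [Prod.mk.injEq, true_and]
    omega
  · intro x _
    rfl

lemma not_dvd_neg_one {p : ℕ} (hp : p.Prime) : ¬ (p : ℤ) ∣ -1 := by
  intro h
  rw [dvd_neg] at h
  have h1 : p ∣ 1 := by exact_mod_cast h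
  exact hp.one_lt.ne' (Nat.dvd_one.1 h1)

lemma isC_iff (c : ℤ) (n : ℕ) (K : ℝ) (h : Pool.Agent.N728.QL.IsC (-1) n c K) :
    Tendsto (partialK c n) atTop (𝓝 K) := by
  refine Tendsto.congr ?_ h
  intro z
  unfold partialK Pool.Agent.N728.QL.partialC
  have e1 : (Icc 3 z).filter (fun p : ℕ => p.Prime ∧ (p : ℤ) ∣ -1 ∧ (p : ℤ) ∣ (n : ℤ)) = ∅ := by
    rw [filter_eq_empty_iff]
    rintro p - ⟨h1, h2, -⟩
    exact not_dvd_neg_one h1 h2
  have e2 : (Icc 3 z).filter (fun p : ℕ => p.Prime ∧ ¬ (p : ℤ) ∣ -1) = (Icc 3 z).filter Nat.Prime := by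
    apply filter_congr
    intro p _
    exact ⟨fun h => h.1, fun h => ⟨h, not_dvd_neg_one h⟩⟩
  have e3 : Odd (-1 + (n : ℤ)) ↔ Even n := by
    rw [Int.odd_add, Int.even_coe_nat]
    exact ⟨fun h => h.1 odd_one.neg, fun h => ⟨fun _ => h, fun _ => odd_one.neg⟩⟩
  rw [e1, e2, prod_empty, mul_one]
  simp only [e3]
  congr 1
  apply prod_congr rfl
  intro p _
  have e4 : (n : ℤ) ^ 2 - 4 * -1 * c = (n : ℤ) ^ 2 + 4 * c := by ring
  rw [e4]

/-- **Theorem.** -/
theorem result :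
    ∀ ε : ℝ, 0 < ε → ∃ κ : ℝ, 0 < κ ∧ ∀ δ : ℝ, 0 < δ → ∃ N₀ : ℕ, ∀ N : ℕ, N₀ ≤ N →
      (exceptions κ δ N : ℝ) ≤ ε * N := by
  classical
  intro ε hε
  obtain ⟨κ1, hκ1, h1⟩ := Pool.Agent.N728.QG.finalXY 1 one_ne_zero (ε / 2) (by positivity)
  obtain ⟨κ2, hκ2, h2⟩ := Pool.Agent.N728.QG.finalXY (-1) (by norm_num) (ε / 2) (by positivity)
  refine ⟨min κ1 κ2, lt_min hκ1 hκ2, fun δ hδ => ?_⟩
  obtain ⟨N1, h1⟩ := h1 δ hδ
  obtain ⟨N2, h2⟩ := h2 δ hδ
  refine ⟨max N1 N2, fun N hN => ?_⟩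
  have a1 := h1 N ((le_max_left _ _).trans hN)
  have a2 := h2 N ((le_max_right _ _).trans hN)
  have hsub : (Icc 1 N).filter (fun n : ℕ => ¬ Good (min κ1 κ2) δ n) ⊆
      (Icc 1 N).filter (fun n : ℕ => (Even n ∨ Odd (1 : ℤ)) ∧
        ¬ ∃ S : ℝ, Pool.Agent.N728.QL.IsC (-1) n 1 S ∧ κ1 ≤ S ∧
        |(Pool.Agent.N728.QG.rxy 1 n : ℝ) - S * (n / Real.log n)| ≤ δ * (n / Real.log n)) ∪
      (Icc 1 N).filter (fun n : ℕ => (Even n ∨ Odd (-1 : ℤ)) ∧
        ¬ ∃ S : ℝ, Pool.Agent.N728.QL.IsC (-1) n (-1) S ∧ κ2 ≤ S ∧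
        |(Pool.Agent.N728.QG.rxy (-1) n : ℝ) - S * (n / Real.log n)| ≤ δ * (n / Real.log n)) := by
    intro n hn
    rw [mem_filter] at hn
    rw [mem_union, mem_filter, mem_filter]
    by_contra hcon
    push Not at hcon
    obtain ⟨b1, b2⟩ := hcon
    obtain ⟨S1, s1, s2, s3⟩ := b1 hn.1 (Or.inr odd_one)
    obtain ⟨S2, t1, t2, t3⟩ := b2 hn.1 (Or.inr odd_one.neg)
    apply hn.2
    intro c hc
    rcases hc with hc | hc
    · subst hc
      exact ⟨S1, isC_iff _ _ _ s1, (min_le_left _ _).trans s2, by rw [rep_eq]; exact s3⟩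
    · subst hc
      exact ⟨S2, isC_iff _ _ _ t1, (min_le_right _ _).trans t2, by rw [rep_eq]; exact t3⟩
  unfold exceptions
  have e1 := (card_le_card hsub).trans (card_union_le _ _)
  have e2 : (((Icc 1 N).filter (fun n : ℕ => ¬ Good (min κ1 κ2) δ n)).card : ℝ) ≤
      (((Icc 1 N).filter (fun n : ℕ => (Even n ∨ Odd (1 : ℤ)) ∧
        ¬ ∃ S : ℝ, Pool.Agent.N728.QL.IsC (-1) n 1 S ∧ κ1 ≤ S ∧
        |(Pool.Agent.N728.QG.rxy 1 n : ℝ) - S * (n / Real.log n)| ≤ δ * (n / Real.log n))).card : ℝ) +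
      (((Icc 1 N).filter (fun n : ℕ => (Even n ∨ Odd (-1 : ℤ)) ∧
        ¬ ∃ S : ℝ, Pool.Agent.N728.QL.IsC (-1) n (-1) S ∧ κ2 ≤ S ∧
        |(Pool.Agent.N728.QG.rxy (-1) n : ℝ) - S * (n / Real.log n)| ≤ δ * (n / Real.log n))).card : ℝ) := by
    exact_mod_cast e1
  linarith

end Pool.Agent.Results.MP_f8fff1_nt.AlmostAllIntegers
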